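import Mathlib

namespace Pool.Agent.H.MP_0de7f2_an

open Set

variable {R : Type*} [Ring R] [StarRing R] [Algebra ℂ R] [StarModule ℂ R]

lemma masa (G : Set R) (hG : ∀ x ∈ G, star x = x) (hc : G ⊆ G.centralizer) :
    ∃ D : Set R, G ⊆ D ∧ (∀ x ∈ D, star x ∈ D) ∧ D.centralizer = D := by
  obtain ⟨D, h1, h2⟩ := zorn_subset_nonempty {s : Set R | (∀ x ∈ s, star x ∈ s) ∧ s ⊆ s.centralizer}
    (fun c hc h _ => ⟨⋃₀ c, ⟨fun x ⟨s, h1, h2⟩ => ⟨s, h1, (hc h1).1 x h2⟩,
      fun x ⟨s, h1, h2⟩ y ⟨t, h3, h4⟩ => (h.total h1 h3).elim (fun h => (hc h3).2 (h h2) y h4)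
        fun h => (hc h1).2 h2 y (h h4)⟩, fun s hs => subset_sUnion_of_mem hs⟩) G
    ⟨fun x hx => (hG x hx).symm ▸ hx, hc⟩
  have h3 : ∀ z ∈ D.centralizer, star z ∈ D.centralizer := fun z hz m hm => by
    simpa using (congrArg star (hz _ (h2.1.1 m hm))).symm
  have h4 : ∀ z ∈ D.centralizer, star z = z → z ∈ D := fun z hz hs => h2.2 (y := insert z D) ⟨by
    rintro x (rfl | hx)
    · exact Or.inl hs
    · exact Or.inr (h2.1.1 x hx), by
    rintro x (rfl | hx) y (rfl | hy)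
    exacts [rfl, hz y hy, (hz x hx).symm, h2.1.2 hx y hy]⟩ (subset_insert _ _) (mem_insert _ _)
  refine ⟨D, h1, h2.1.1, subset_antisymm (h2.2 (y := D.centralizer) ⟨h3, fun z hz w hw => ?_⟩ h2.1.2)
    h2.1.2⟩
  have h5 := hz _ (h4 _ (add_mem_centralizer hw (h3 w hw)) (by simp [add_comm]))
  have h6 := hz _ (h4 (Complex.I • (w - star w)) ((Subalgebra.centralizer ℂ D).smul_mem
    ((Subalgebra.centralizer ℂ D).sub_mem hw (h3 w hw)) _) (by simp [smul_sub]; abel))
  rw [smul_mul_assoc, mul_smul_comm] at h6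
  have h7 := congrArg ((-Complex.I) • ·) h6
  simp only [smul_smul, neg_mul, Complex.I_mul_I, neg_neg, one_smul] at h7
  have h8 : (2 : ℂ) • (w * z) = (2 : ℂ) • (z * w) := by
    simp only [two_smul]; linear_combination (norm := noncomm_ring) h5 + h7
  simpa [smul_smul] using congrArg ((1 / 2 : ℂ) • ·) h8

omit [StarModule ℂ R] in
lemma maxl (T0 : Subalgebra ℂ R) {D : Set R} (hD : D.centralizer = D)
    (h0 : {x | x ∈ T0 ∧ star x ∈ T0} = D) : ∃ T : Subalgebra ℂ R, T0 ≤ T ∧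
      {x | x ∈ T ∧ star x ∈ T} = D ∧ ∀ B : Subalgebra ℂ R, T ≤ B →
        centralizer {x | x ∈ B ∧ star x ∈ B} = {x | x ∈ B ∧ star x ∈ B} → B = T := by
  obtain ⟨T, h1, h2⟩ := zorn_le_nonempty₀ {B : Subalgebra ℂ R | ∀ x ∈ B, star x ∈ B → x ∈ D}
    (fun c hc h y hy => by
      have : Nonempty c := ⟨⟨y, hy⟩⟩
      refine ⟨⨆ s : c, s.1, fun x h1 h2 => ?_, fun z hz => le_iSup (fun s : c => s.1) ⟨z, hz⟩⟩
      rw [← SetLike.mem_coe, Subalgebra.coe_iSup_of_directed h.directedOn.directed_val] at h1 h2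
      obtain ⟨s, hs⟩ := mem_iUnion.1 h1
      obtain ⟨t, ht⟩ := mem_iUnion.1 h2
      exact (h.total s.2 t.2).elim (fun h => hc t.2 x (h hs) ht) fun h => hc s.2 x hs (h ht))
    T0 fun x h1 h2 => h0 ▸ ⟨h1, h2⟩
  have h3 : ∀ B, T ≤ B → D ⊆ {x | x ∈ B ∧ star x ∈ B} := fun B hB x hx =>
    ⟨hB (h1 (h0.symm ▸ hx : x ∈ {x | x ∈ T0 ∧ star x ∈ T0}).1),
      hB (h1 (h0.symm ▸ hx : x ∈ {x | x ∈ T0 ∧ star x ∈ T0}).2)⟩
  exact ⟨T, h1, subset_antisymm (fun x hx => h2.1 x hx.1 hx.2) (h3 T le_rfl), fun B hB h4 =>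
    le_antisymm (h2.2 (fun x h5 h6 => hD ▸ centralizer_subset (h3 B hB) (h4.symm ▸ ⟨h5, h6⟩)) hB) hB⟩

def alg (N : ℝ → R) : Subalgebra ℂ R where
  carrier := {x | ∀ t, (1 - N t) * x * N t = (1 - N t) * N t * x ∧ (1 - N t) * N t = 0} ∪
    {x | ∃ t, (1 - N t) * N t ≠ 0}
  mul_mem' := by
    rintro x y (hx | hx) (hy | hy)
    · refine Or.inl fun t => ⟨?_, (hx t).2⟩
      have h1 := (hx t).1
      have h2 := (hy t).1
      rw [(hx t).2, zero_mul] at h1 h2 ⊢
      calc _ = (1 - N t) * x * ((1 - N t) * y * N t) + (1 - N t) * x * N t * (y * N t) := by noncomm_ring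
        _ = 0 := by rw [h1, h2]; simp
    all_goals exact Or.inr ‹_›
  add_mem' := by
    rintro x y (hx | hx) (hy | hy)
    · exact Or.inl fun t => ⟨by rw [mul_add, add_mul, mul_add, (hx t).1, (hy t).1], (hx t).2⟩
    all_goals exact Or.inr ‹_›
  algebraMap_mem' c := by
    by_cases h : ∀ t, (1 - N t) * N t = 0
    · exact Or.inl fun t => ⟨by simp [Algebra.algebraMap_eq_smul_one], h t⟩
    · exact Or.inr (not_forall.1 h)

omit [StarRing R] [StarModule ℂ R] in
lemma mem_alg {N : ℝ → R} (h : ∀ t, N t * N t = N t) {x : R} :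
    x ∈ alg N ↔ ∀ t, (1 - N t) * x * N t = 0 := by
  have h1 : ∀ t, (1 - N t) * N t = 0 := fun t => by rw [sub_mul, h, one_mul, sub_self]
  exact ⟨fun hx t => hx.elim (fun h => by rw [(h t).1, h1, zero_mul]) fun ⟨t, h⟩ => absurd (h1 t) h,
    fun hx => Or.inl fun t => ⟨by rw [hx, h1, zero_mul], h1 t⟩⟩

theorem core (N : ℝ → R) (E : ℕ → R) (P a b x0 y : R) (hN : ∀ t, star (N t) = N t)
    (hN2 : ∀ s t, s ≤ t → N t * N s = N s) (hE : ∀ k, star (E k) = E k)
    (hE2 : ∀ k l, k ≤ l → E k * E l = E l) (E0 : E 0 = 1) (E4 : E 4 = 0) (hP : star P = P)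
    (c1 : ∀ t k, N t * E k = E k * N t) (c2 : ∀ t, N t * P = P * N t) (c3 : ∀ k, E k * P = P * E k)
    (hz : ∀ z ∈ ({a, b, star y} : Set R), z ∈ alg N ∧ ∀ k, (1 - E (k + 1)) * z * E k = 0)
    (hy : a * x0 * b = y) (hy' : E 2 * y ≠ y * E 2) :
    ∃ T : Subalgebra ℂ R, (centralizer {x | x ∈ T ∧ star x ∈ T} = {x | x ∈ T ∧ star x ∈ T} ∧
      ∀ B : Subalgebra ℂ R, T ≤ B →
        centralizer {x | x ∈ B ∧ star x ∈ B} = {x | x ∈ B ∧ star x ∈ B} → B = T) ∧
      P ∈ T ∧ T ≤ alg N ∧ x0 ∉ T := by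
  have n1 : ∀ t, N t * N t = N t := fun t => hN2 t t le_rfl
  have n2 : ∀ s t, s ≤ t → N s * N t = N s := fun s t h => by simpa [hN] using congrArg star (hN2 s t h)
  have n3 : ∀ s t, N s * N t = N t * N s := fun s t => (le_total s t).elim
    (fun h => by rw [hN2 s t h, n2 s t h]) fun h => by rw [hN2 t s h, n2 t s h]
  have e2 : ∀ k l, k ≤ l → E l * E k = E l := fun k l h => by simpa [hE] using congrArg star (hE2 k l h)
  have e3 : ∀ s t, E s * E t = E t * E s := fun s t => (le_total s t).elim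
    (fun h => by rw [hE2 s t h, e2 s t h]) fun h => by rw [hE2 t s h, e2 t s h]
  obtain ⟨D, d1, d2, d3⟩ := masa (range N ∪ range E ∪ {P}) (by
    rintro _ ((⟨t, rfl⟩ | ⟨k, rfl⟩) | rfl)
    exacts [hN t, hE k, hP]) (by
    rintro _ ((⟨t, rfl⟩ | ⟨k, rfl⟩) | rfl) _ ((⟨t, rfl⟩ | ⟨k, rfl⟩) | rfl)
    exacts [n3 _ _, (c1 _ _).symm, (c2 _).symm, c1 _ _, e3 _ _, (c3 _).symm, c2 _, c3 _, rfl])
  have dN : ∀ t, N t ∈ D := fun t => d1 (Or.inl (Or.inl ⟨t, rfl⟩))
  have dE : ∀ t, E t ∈ D := fun t => d1 (Or.inl (Or.inr ⟨t, rfl⟩))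
  have dc : ∀ d ∈ D, ∀ e ∈ D, e * d = d * e := fun d hd => (d3.symm ▸ hd : d ∈ D.centralizer)
  obtain ⟨D', hD'⟩ : ∃ D' : Subalgebra ℂ R, ∀ x, x ∈ D' ↔ x ∈ D :=
    ⟨Subalgebra.centralizer ℂ D, fun x => by rw [← SetLike.mem_coe, Subalgebra.coe_centralizer, d3]⟩
  have dA : ∀ d ∈ D, d ∈ alg N := fun d hd => (mem_alg n1).2 fun t => by
    rw [mul_assoc, ← dc d hd _ (dN t), ← mul_assoc, sub_mul, n1, one_mul, sub_self, zero_mul]
  obtain ⟨J, hJ⟩ : ∃ J, J = Submodule.span ℂ {j : R | ∃ t y, j = N t * y * (1 - N t)} := ⟨_, rfl⟩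
  have j1 : ∀ x ∈ alg N, ∀ z ∈ alg N, ∀ j ∈ J, x * j * z ∈ J := fun x hx z hz j hj => by
    rw [hJ] at hj ⊢
    induction hj using Submodule.span_induction with
    | mem j h =>
      obtain ⟨t, y, rfl⟩ := h
      refine Submodule.subset_span ⟨t, x * N t * y * (1 - N t) * z, ?_⟩
      have h1 := (mem_alg n1).1 hx t
      have h2 := (mem_alg n1).1 hz t
      calc _ = ((1 - N t) * x * N t + N t * x * N t) * y * ((1 - N t) * z * N t +
          (1 - N t) * z * (1 - N t)) := by noncomm_ring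
        _ = _ := by rw [h1, h2]; noncomm_ring
    | zero => simp
    | add j k _ _ h1 h2 => rw [mul_add, add_mul]; exact add_mem h1 h2
    | smul c j _ h => rw [mul_smul_comm, smul_mul_assoc]; exact Submodule.smul_mem _ _ h
  have j2 : ∀ j ∈ J, (∀ t, N t * j = j * N t) → j = 0 := fun j hj => by
    have h1 : ∃ F : Finset ℝ, ∀ e f, (∀ t ∈ F, e * N t = 0 ∨ (1 - N t) * f = 0) → e * j * f = 0 := by
      rw [hJ] at hj
      induction hj using Submodule.span_induction with
      | mem j h =>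
        obtain ⟨t, y, rfl⟩ := h
        refine ⟨{t}, fun e f h => ?_⟩
        rw [show e * (N t * y * (1 - N t)) * f = e * N t * y * ((1 - N t) * f) by noncomm_ring]
        rcases h t (by simp) with h | h <;> simp [h]
      | zero => simp
      | add j k _ _ h1 h2 =>
        obtain ⟨F, h1⟩ := h1
        obtain ⟨G, h2⟩ := h2
        exact ⟨F ∪ G, fun e f h => by
          rw [mul_add, add_mul, h1 e f fun t ht => h t (by simp [ht]), h2 e f fun t ht => h t (by simp [ht]),
            add_zero]⟩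
      | smul c j _ h => exact h.imp fun F h e f h1 => by rw [mul_smul_comm, smul_mul_assoc, h e f h1, smul_zero]
    obtain ⟨F, hF⟩ := h1
    clear hj
    induction F using Finset.induction_on generalizing j with
    | empty => exact fun _ => by simpa using hF 1 1 (by simp)
    | insert s F _ ih =>
      intro hc
      have h1 := ih ((1 - N s) * j) (fun e f h => by
        rw [← mul_assoc]
        refine hF _ _ fun t ht => ?_
        rcases Finset.mem_insert.1 ht with rfl | ht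
        · exact Or.inl (by rw [mul_assoc, sub_mul, n1, one_mul, sub_self, mul_zero])
        · exact (h t ht).imp_left fun h => by
            rw [mul_assoc, sub_mul, n3, one_mul, mul_sub, ← mul_assoc, h]; simp) fun t => by
          exact (((Commute.one_right (N t)).sub_right (n3 t s)).mul_right (hc t)).eq
      have h2 := ih (j * N s) (fun e f h => by
        rw [← mul_assoc, mul_assoc _ (N s)]
        refine hF _ _ fun t ht => ?_
        rcases Finset.mem_insert.1 ht with rfl | ht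
        · exact Or.inr (by rw [← mul_assoc, sub_mul, n1, one_mul, sub_self, zero_mul])
        · exact (h t ht).imp_right fun h => by
            rw [← mul_assoc, show (1 - N t) * N s = N s * (1 - N t) by
              rw [sub_mul, mul_sub, n3, one_mul, mul_one], mul_assoc, h, mul_zero]) fun t => by
          rw [← mul_assoc, hc, mul_assoc, n3, mul_assoc]
      rwa [sub_mul, hc, h2, sub_zero, one_mul] at h1
  have a1 : ∀ k, 1 - E k ∈ alg N := fun k => sub_mem (one_mem _) (dA _ (dE k))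
  let T0 : Subalgebra ℂ R :=
    { carrier := {x | x ∈ alg N ∧ ∃ d ∈ D, ∀ k, (1 - E (k + 1)) * (x - d) * E k ∈ J}
      mul_mem' := by
        rintro x z ⟨h1, d, h2, h3⟩ ⟨h4, e, h5, h6⟩
        refine ⟨mul_mem h1 h4, d * e, (hD' _).1 (mul_mem ((hD' _).2 h2) ((hD' _).2 h5)), fun k => ?_⟩
        have k1 := j1 1 (one_mem _) e (dA e h5) _ (h3 k)
        have k2 := j1 d (dA d h2) 1 (one_mem _) _ (h6 k)
        have k3 := j1 1 (one_mem _) _ (mul_mem (mul_mem (dA _ (dE (k + 1))) (sub_mem h4 (dA e h5)))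
          (dA _ (dE k))) _ (h3 k)
        have k4 := j1 _ (mul_mem (a1 (k + 1)) (sub_mem h1 (dA d h2))) 1 (one_mem _) _ (h6 k)
        convert add_mem (add_mem k1 k2) (add_mem k3 k4) using 1
        have k5 := hE2 k (k + 1) k.le_succ
        have k6 := dc e h5 _ (dE k)
        have k7 := dc d h2 _ (dE (k + 1))
        calc _ = (1 - E (k + 1)) * (x - d) * (e * E k) + (1 - E (k + 1)) * d * (z - e) * E k +
            ((1 - E (k + 1)) * (x - d) * E (k + 1) * (z - e) * E k +
              (1 - E (k + 1)) * (x - d) * ((1 - E (k + 1)) * (z - e) * E k)) := by noncomm_ring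
          _ = (1 - E (k + 1)) * (x - d) * (E k * e) + d * (1 - E (k + 1)) * (z - e) * E k +
            ((1 - E (k + 1)) * (x - d) * (E k * E (k + 1)) * (z - e) * E k +
              (1 - E (k + 1)) * (x - d) * ((1 - E (k + 1)) * (z - e) * E k)) := by
              rw [k5, k6, sub_mul 1 _ d, mul_sub d, k7, one_mul, mul_one]
          _ = _ := by noncomm_ring
      add_mem' := by
        rintro x z ⟨h1, d, h2, h3⟩ ⟨h4, e, h5, h6⟩
        refine ⟨add_mem h1 h4, d + e, (hD' _).1 (add_mem ((hD' _).2 h2) ((hD' _).2 h5)), fun k => ?_⟩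
        convert add_mem (h3 k) (h6 k) using 1
        noncomm_ring
      algebraMap_mem' := fun c => ⟨algebraMap_mem _ c, _, (hD' _).1 (algebraMap_mem _ c), by simp⟩ }
  have t1 : ∀ d ∈ D, d ∈ T0 := fun d hd => ⟨dA d hd, d, hd, by simp⟩
  have z0 : (0 : R) ∈ D := (hD' _).1 (zero_mem _)
  obtain ⟨T, h1, h2, h3⟩ := maxl T0 d3 (subset_antisymm (by
    rintro x ⟨⟨h1, d, h2, h3⟩, h4, e, h5, h6⟩
    have k1 : ∀ t, N t * x = x * N t := fun t => by
      have k1 := (mem_alg n1).1 h1 t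
      have k2 := congrArg star ((mem_alg n1).1 h4 t)
      simp only [star_mul, star_sub, hN, star_star, star_one, star_zero] at k2
      linear_combination (norm := noncomm_ring) k2 - k1
    have k2 : ∀ k (x d : R), d ∈ D → (∀ t, N t * x = x * N t) → (1 - E (k + 1)) * (x - d) * E k ∈ J →
        (1 - E (k + 1)) * (x - d) * E k = 0 := fun k x d hd hx h => j2 _ h fun t =>
      (((Commute.one_right (N t)).sub_right (c1 t _)).mul_right (Commute.sub_right (hx t)
        (dc d hd _ (dN t)))).mul_right (c1 t k)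
    have k3 := fun k => k2 k x d h2 k1 (h3 k)
    have k4 : ∀ k, E k * (x - star e) * (1 - E (k + 1)) = 0 := fun k => by
      simpa [hE, mul_assoc] using congrArg star (k2 k _ e h5 (fun t => by
        simpa [hN] using (congrArg star (k1 t)).symm) (h6 k))
    have k5 : ∀ k, (d - star e) * E k = (d - star e) * E (k + 1) := fun k => by
      have k6 : Commute (E k) (1 - E (k + 1)) := (Commute.one_right _).sub_right (e3 _ _)
      have k7 : ∀ l, Commute (E l) (d - star e) := fun l =>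
        Commute.sub_right (dc d h2 _ (dE l)) (dc _ (d2 e h5) _ (dE l))
      have k9 : (1 - E (k + 1)) * E k * (d - star e) * ((1 - E (k + 1)) * E k) = 0 := by
        calc _ = (1 - E (k + 1)) * (E k * (x - star e) * (1 - E (k + 1))) * E k -
            (1 - E (k + 1)) * E k * (x - d) * ((1 - E (k + 1)) * E k) := by noncomm_ring
          _ = _ := by
            rw [k4, ← k6.eq, show E k * (1 - E (k + 1)) * (x - d) * (E k * (1 - E (k + 1))) =
              E k * ((1 - E (k + 1)) * (x - d) * E k) * (1 - E (k + 1)) by noncomm_ring, k3]; simp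
      have k10 : (1 - E (k + 1)) * E k = E k - E (k + 1) := by rw [sub_mul, one_mul, e2 _ _ k.le_succ]
      rw [(((Commute.one_left _).sub_left (k7 (k + 1))).mul_left (k7 k)).eq, mul_assoc, k10,
        show (E k - E (k + 1)) * (E k - E (k + 1)) = E k - E (k + 1) by
          simp only [sub_mul, mul_sub, hE2 _ _ le_rfl, e2 k (k + 1) k.le_succ, hE2 k (k + 1) k.le_succ]
          abel, mul_sub, sub_eq_zero] at k9
      exact k9
    have k6 : d = star e := by
      rw [← sub_eq_zero, ← mul_one (d - star e), ← E0, k5, k5, k5, k5, E4, mul_zero]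
    have k7 : ∀ k, (x - d) * E k = (x - d) * E (k + 1) := fun k => by
      have k7 := k3 k
      have k8 := k4 (k + 1)
      rw [← k6] at k8
      have k9 : (x - d) * E k = E (k + 1) * (x - d) * E k := by
        linear_combination (norm := noncomm_ring) k7
      have k10 : E (k + 1) * (x - d) = E (k + 1) * (x - d) * E (k + 1 + 1) := by
        linear_combination (norm := noncomm_ring) k8
      have k11 : (x - d) * E k = (x - d) * E k * E (k + 1) := by
        rw [k9, k10, mul_assoc _ (E (k + 1 + 1)), e2 _ _ (by omega), mul_assoc _ (E (k + 1 + 1)),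
          e2 _ _ (by omega)]
      rw [k11, mul_assoc, hE2 _ _ k.le_succ]
    have k8 : x = d := by
      rw [← sub_eq_zero, ← mul_one (x - d), ← E0, k7, k7, k7, k7, E4, mul_zero]
    exact k8 ▸ h2) fun d hd => ⟨t1 d hd, t1 _ (d2 d hd)⟩)
  have t2 : ∀ z ∈ ({a, b, star y} : Set R), z ∈ T := fun z h => h1 ⟨(hz z h).1, 0, z0, by simp [(hz z h).2]⟩
  refine ⟨T, ⟨h2.symm ▸ d3, h3⟩, h1 (t1 P (d1 (Or.inr rfl))), fun x hx => (mem_alg n1).2 fun t => ?_,
    fun h => hy' (dc y (h2 ▸ ⟨hy ▸ mul_mem (mul_mem (t2 a (by simp)) h) (t2 b (by simp)),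
      t2 _ (by simp)⟩) _ (dE 2))⟩
  have k1 : N t * star x * (1 - N t) ∈ T0 := ⟨(mem_alg n1).2 fun s => by
    rw [show (1 - N s) * (N t * star x * (1 - N t)) * N s = (1 - N s) * N t * star x * ((1 - N t) * N s) by
      noncomm_ring]
    rcases le_total s t with h | h
    · rw [sub_mul 1 (N t), hN2 s t h]; simp
    · rw [sub_mul 1 (N s), hN2 t s h]; simp, 0, z0, fun k => by
      rw [sub_zero]
      exact j1 _ (a1 _) _ (dA _ (dE k)) _ (hJ ▸ Submodule.subset_span ⟨t, _, rfl⟩)⟩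
  have k2 := dc _ (h2 ▸ ⟨mul_mem (mul_mem (sub_mem (one_mem _) (h1 (t1 _ (dN t)))) hx) (h1 (t1 _ (dN t))),
    by simpa [hN, mul_assoc] using h1 k1⟩ : (1 - N t) * x * N t ∈ D) _ (dN t)
  rw [mul_assoc _ (N t), n1, ← mul_assoc, ← mul_assoc, mul_sub, n1] at k2
  simpa using k2.symm

end Pool.Agent.H.MP_0de7f2_an
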