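import Pool.Agent.H.MP_0de7f2_an.A

namespace Pool.Agent.H.MP_0de7f2_an

open Set Filter Topology InnerProductSpace

variable {H : Type*} [NormedAddCommGroup H] [InnerProductSpace ℂ H] [CompleteSpace H]

noncomputable def cl (g : Set H) : Submodule ℂ H := (Submodule.span ℂ g).topologicalClosure

instance (g : Set H) : CompleteSpace (cl g) := Submodule.topologicalClosure.completeSpace _

noncomputable def pr (g : Set H) : H →L[ℂ] H := (cl g).starProjection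

omit [CompleteSpace H] in
lemma cl_closed (g : Set H) : IsClosed (cl g : Set H) := Submodule.isClosed_topologicalClosure _

omit [CompleteSpace H] in
lemma sub_cl {g : Set H} {v : H} (h : v ∈ g) : v ∈ cl g :=
  Submodule.le_topologicalClosure _ (Submodule.subset_span h)

omit [CompleteSpace H] in
lemma cl_le {g : Set H} {S : Submodule ℂ H} (hS : IsClosed (S : Set H)) (h : ∀ w ∈ g, w ∈ S) : cl g ≤ S :=
  Submodule.topologicalClosure_minimal _ (Submodule.span_le.2 h) hS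

lemma pr_star (g : Set H) : star (pr g) = pr g := isSelfAdjoint_starProjection _
lemma pr_mem (g : Set H) (v : H) : pr g v ∈ cl g := Submodule.starProjection_apply_mem _ _
lemma pr_self {g : Set H} {v : H} (h : v ∈ cl g) : pr g v = v := Submodule.starProjection_eq_self_iff.2 h
lemma pr_norm (g : Set H) : ‖pr g‖ ≤ 1 := Submodule.starProjection_norm_le _

lemma st_inner (x : H →L[ℂ] H) (v w : H) : ⟪star x v, w⟫_ℂ = ⟪v, x w⟫_ℂ :=
  ContinuousLinearMap.adjoint_inner_left x w v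

lemma pr_inner (g : Set H) (v w : H) : ⟪pr g v, w⟫_ℂ = ⟪v, pr g w⟫_ℂ := by rw [← st_inner, pr_star]

omit [CompleteSpace H] in
lemma inv {g g' : Set H} {x : H →L[ℂ] H} (h : ∀ w ∈ g, x w ∈ cl g') {v : H} (hv : v ∈ cl g) :
    x v ∈ cl g' :=
  cl_le (S := (cl g').comap (x : H →ₗ[ℂ] H)) ((cl_closed g').preimage x.continuous) h hv

omit [CompleteSpace H] in
lemma orth {g : Set H} {v : H} (h : ∀ w ∈ g, ⟪w, v⟫_ℂ = 0) {w : H} (hw : w ∈ cl g) : ⟪w, v⟫_ℂ = 0 :=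
  Submodule.mem_orthogonal_singleton_iff_inner_left.1 (cl_le (S := (ℂ ∙ v)ᗮ)
    (Submodule.isClosed_orthogonal _) (fun w hw =>
      Submodule.mem_orthogonal_singleton_iff_inner_left.2 (h w hw)) hw)

lemma pr_zero {g : Set H} {v : H} (h : ∀ w ∈ g, ⟪w, v⟫_ℂ = 0) : pr g v = 0 :=
  (Submodule.starProjection_apply_eq_zero_iff _).2 fun _ hw => orth h hw

lemma pr_eq {g : Set H} {v w : H} (h : w ∈ cl g) (h' : ∀ z ∈ g, ⟪z, v⟫_ℂ = ⟪z, w⟫_ℂ) : pr g v = w := by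
  have := pr_zero (g := g) (v := v - w) fun z hz => by rw [inner_sub_right, h' z hz, sub_self]
  rwa [map_sub, pr_self h, sub_eq_zero] at this

lemma mul_pr {g g' : Set H} {x : H →L[ℂ] H} (h : ∀ w ∈ g, x w ∈ cl g') : pr g' * (x * pr g) = x * pr g :=
  ContinuousLinearMap.ext fun v => pr_self (inv h (pr_mem g v))

lemma pr_pr {g g' : Set H} (h : ∀ w ∈ g, w ∈ cl g') : pr g' * pr g = pr g := mul_pr (x := 1) h

lemma pr_pr' {g g' : Set H} (h : ∀ w ∈ g, w ∈ cl g') : pr g * pr g' = pr g := by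
  simpa [pr_star] using congrArg star (pr_pr h)

lemma pr_comm {g g' : Set H} (h : ∀ w ∈ g, pr g' w ∈ cl g) : pr g * pr g' = pr g' * pr g := by
  have h1 := mul_pr h
  have h2 := congrArg star h1
  simp only [star_mul, pr_star] at h2
  rw [← h2, mul_assoc, h1]

lemma eq_pr {g : Set H} {x y : H →L[ℂ] H} (h : ∀ w ∈ g, x w = y w) : x * pr g = y * pr g :=
  ContinuousLinearMap.ext fun v => cl_le (S := LinearMap.eqLocus (x : H →ₗ[ℂ] H) y)
    (isClosed_eq x.continuous y.continuous) h (pr_mem g v)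

lemma syn {ι : Type*} {ε η : ι → H} (hε : Orthonormal ℂ ε) {C : ℝ} (C0 : 0 ≤ C)
    (h : ∀ v (s : Finset ι), ∑ i ∈ s, ‖⟪η i, v⟫_ℂ‖ ^ 2 ≤ (C * ‖v‖) ^ 2) :
    ∃ b : H →L[ℂ] H, ∀ v, HasSum (fun i => ⟪η i, v⟫_ℂ • ε i) (b v) := by
  have h1 : ∀ v, Summable fun i => ⟪η i, v⟫_ℂ • ε i := fun v =>
    (hε.orthogonalFamily.summable_iff_norm_sq_summable fun i => ⟪η i, v⟫_ℂ).2
      (summable_of_sum_le (fun _ => sq_nonneg _) (h v))
  refine ⟨LinearMap.mkContinuous ⟨⟨fun v => ∑' i, ⟪η i, v⟫_ℂ • ε i, fun v w => ?_⟩, fun c v => ?_⟩ C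
    fun v => le_of_tendsto' (h1 v).hasSum.norm fun s => ?_, fun v => (h1 v).hasSum⟩
  · simp only [inner_add_right, add_smul, (h1 v).tsum_add (h1 w)]
  · simp only [inner_smul_right, mul_smul, (h1 v).tsum_const_smul c, RingHom.id_apply]
  · exact (sq_le_sq₀ (norm_nonneg _) (by positivity)).1
      ((hε.orthogonalFamily.norm_sum (fun i => ⟪η i, v⟫_ℂ) s).trans_le (h v s))

lemma fin_tend {B : ℕ → H →L[ℂ] H} {g : Set H} (hg : g.Finite)
    (h : ∀ v ∈ cl g, Tendsto (B · v) atTop (𝓝 v)) : Tendsto (fun M => ‖(1 - B M) * pr g‖) atTop (𝓝 0) := by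
  have := FiniteDimensional.span_of_finite ℂ hg
  have : FiniteDimensional ℂ (cl g) := by
    rwa [cl, (Submodule.closed_of_finiteDimensional _).submodule_topologicalClosure_eq]
  rw [← tendsto_zero_iff_norm_tendsto_zero, pr,
    (stdOrthonormalBasis ℂ (cl g)).starProjection_eq_sum_rankOne]
  simp only [Finset.mul_sum]
  rw [← Finset.sum_const_zero]
  refine tendsto_finsetSum _ fun i _ => ?_
  rw [tendsto_zero_iff_norm_tendsto_zero]
  simp only [ContinuousLinearMap.mul_def, comp_rankOne, norm_rankOne]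
  simpa using ((h _ (stdOrthonormalBasis ℂ (cl g) i).2).const_sub
    (stdOrthonormalBasis ℂ (cl g) i : H)).norm.mul_const _

omit [CompleteSpace H] in
lemma cl_tend {B : ℕ → H →L[ℂ] H} (hB : ∀ M, ‖B M‖ ≤ 1) {g : Set H}
    (h : ∀ v ∈ g, Tendsto (B · v) atTop (𝓝 v)) : ∀ v ∈ cl g, Tendsto (B · v) atTop (𝓝 v) :=
  fun _ hv => cl_le (S := ⟨⟨⟨{v | Tendsto (B · v) atTop (𝓝 v)}, fun h1 h2 => by
    simpa using h1.add h2⟩, by simp⟩, fun c v h => by simpa using h.const_smul c⟩)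
    ((LipschitzWith.uniformEquicontinuous (fun M => B M) 1 fun M =>
      (B M).lipschitz.weaken (hB M)).equicontinuous.isClosed_setOfPred_tendsto continuous_id) h hv

lemma bes {g : ℕ → Set H} (hg : Monotone g) {B : ℕ → H →L[ℂ] H} (h1 : ∀ n, ‖B n‖ ≤ 1)
    (h2 : ∀ n, pr (g (n + 3)) * B n = B n * pr (g (n + 3)))
    (h3 : ∀ n, ‖(1 - B n) * pr (g n)‖ ≤ (1 / 2) ^ n) (v : H) (N : ℕ) :
    ∑ n ∈ Finset.range N, ‖pr (g (n + 3)) ((1 - B n) v)‖ ^ 2 ≤ (6 * ‖v‖) ^ 2 := by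
  have h4 : ∀ N, ∑ n ∈ Finset.range N, ‖pr (g (n + 3)) ((1 - B n) v)‖ ^ 2 ≤ 8 * (‖pr (g N) v‖ ^ 2 +
      ‖pr (g (N + 1)) v‖ ^ 2 + ‖pr (g (N + 2)) v‖ ^ 2) + 4 * (1 - (1 / 2) ^ N) * ‖v‖ ^ 2 := fun n => by
    induction n with
    | zero => simp; positivity
    | succ n ih =>
      have k1 := Submodule.norm_sq_eq_add_norm_sq_starProjection (pr (g (n + 3)) v) (cl (g n))
      have k2 : (cl (g n)).starProjection (pr (g (n + 3)) v) = pr (g n) v :=
        DFunLike.congr_fun (pr_pr' fun w hw => sub_cl (hg (by omega) hw)) v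
      rw [Submodule.starProjection_orthogonal_val, k2] at k1
      have k3 : pr (g (n + 3)) ((1 - B n) v) = (1 - B n) (pr (g (n + 3)) v - pr (g n) v) +
          ((1 - B n) * pr (g n)) v := by
        have : pr (g (n + 3)) (B n v) = B n (pr (g (n + 3)) v) := DFunLike.congr_fun (h2 n) v
        simp [this]
        abel
      have k4 : ‖pr (g (n + 3)) ((1 - B n) v)‖ ≤ 2 * ‖pr (g (n + 3)) v - pr (g n) v‖ + (1 / 2) ^ n * ‖v‖ :=
        k3 ▸ (norm_add_le _ _).trans (add_le_add ((1 - B n).le_of_opNorm_le ((norm_sub_le _ _).trans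
          (by linarith [h1 n, ContinuousLinearMap.norm_id_le (𝕜 := ℂ) (E := H),
            show ‖(1 : H →L[ℂ] H)‖ = ‖ContinuousLinearMap.id ℂ H‖ from rfl])) _)
          (ContinuousLinearMap.le_of_opNorm_le _ (h3 n) _))
      have k5 := pow_le_pow_left₀ (norm_nonneg _) k4 2
      have k6 : (1 / 2 : ℝ) ^ n ≤ 1 := pow_le_one₀ (by norm_num) (by norm_num)
      have k7 : ((1 / 2 : ℝ) ^ n * ‖v‖) ^ 2 ≤ (1 / 2) ^ n * ‖v‖ ^ 2 := by
        rw [mul_pow]; gcongr; rw [sq]; exact mul_le_of_le_one_left (by positivity) k6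
      rw [Finset.sum_range_succ, pow_succ (1 / 2 : ℝ)]
      nlinarith [sq_nonneg (2 * ‖pr (g (n + 3)) v - pr (g n) v‖ - (1 / 2) ^ n * ‖v‖)]
  have h5 : ∀ n, ‖pr (g n) v‖ ^ 2 ≤ ‖v‖ ^ 2 := fun n => pow_le_pow_left₀ (norm_nonneg _)
    (by simpa using (pr (g n)).le_of_opNorm_le (pr_norm _) v) 2
  nlinarith [h4 N, h5 N, h5 (N + 1), h5 (N + 2), mul_nonneg (by positivity : (0 : ℝ) ≤ (1 / 2) ^ N)
    (sq_nonneg ‖v‖), sq_nonneg ‖v‖]

end Pool.Agent.H.MP_0de7f2_an
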