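import Pool.Agent.H.MP_0de7f2_an.B

namespace Pool.Agent.H.MP_0de7f2_an

open Set Filter Topology InnerProductSpace

variable {H : Type*} [NormedAddCommGroup H] [InnerProductSpace ℂ H] [CompleteSpace H]

noncomputable def κ (s : ℝ) : ℝ := max 0 (min s 1)

lemma κ_mono : Monotone κ := fun _ _ h => max_le_max le_rfl (min_le_min_right _ h)
lemma κ_eq {s : ℝ} (h0 : 0 ≤ s) (h1 : s ≤ 1) : κ s = s := by rw [κ, min_eq_left h1, max_eq_right h0]

def Br (u : ℝ → H) : Prop := ∀ r s, ⟪u r, u s⟫_ℂ = κ (min r s)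

noncomputable def φ (u : ℝ → H) (M k : ℕ) : H :=
  ((√(M + 2) : ℝ) : ℂ) • (u ((k + 1) / (M + 2)) - u (k / (M + 2)))

noncomputable def K (u : ℝ → H) (M : ℕ) : H →L[ℂ] H :=
  ∑ k : Fin M, rankOne ℂ (φ u M k) (φ u M (k + 2))

variable {u : ℝ → H}

omit [CompleteSpace H] in
lemma Br.fu (h : Br u) (M k : ℕ) (s : ℝ) : ⟪φ u M k, u s⟫_ℂ =
    ((√(M + 2) * (κ (min ((k + 1) / (M + 2)) s) - κ (min (k / (M + 2)) s)) : ℝ) : ℂ) := by
  rw [φ, inner_smul_left, inner_sub_left, h, h, Complex.conj_ofReal]; push_cast; rfl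

omit [CompleteSpace H] in
lemma Br.fu0 (h : Br u) {M k : ℕ} {s : ℝ} (hs : s ≤ k / (M + 2)) : ⟪φ u M k, u s⟫_ℂ = 0 := by
  rw [h.fu, min_eq_right hs, min_eq_right (hs.trans (by gcongr; linarith))]; simp

omit [CompleteSpace H] in
lemma Br.fu1 (h : Br u) {M k : ℕ} (hk : k < M + 2) {s : ℝ} (hs : (k + 1) / (M + 2) ≤ s) :
    ⟪φ u M k, u s⟫_ℂ = ((√(M + 2) / (M + 2) : ℝ) : ℂ) := by
  have h1 : (k + 1 : ℝ) ≤ M + 2 := by exact_mod_cast hk
  rw [h.fu, min_eq_left hs, min_eq_left (le_trans (by gcongr; linarith) hs),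
    κ_eq (by positivity) ((div_le_one (by positivity)).2 h1),
    κ_eq (by positivity) ((div_le_one (by positivity)).2 (by linarith))]
  congr 1; ring

omit [CompleteSpace H] in
lemma Br.on (h : Br u) {M : ℕ} (a : ℕ) (ha : a ≤ 2) : Orthonormal ℂ fun k : Fin M => φ u M (k + a) := by
  refine orthonormal_iff_ite.2 fun k l => ?_
  have hk : k + a < M + 2 := by omega
  conv_lhs => rw [φ.eq_def u M (l + a), inner_smul_right, inner_sub_right]
  rcases lt_trichotomy k l with h1 | h1 | h1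
  · have : ((k + a : ℕ) : ℝ) + 1 ≤ (l + a : ℕ) := by exact_mod_cast (show k + a < l + a by omega)
    rw [h.fu1 hk (by gcongr; omega), h.fu1 hk (by gcongr), sub_self, mul_zero, if_neg h1.ne]
  · rw [h1, h.fu1 (h1 ▸ hk) le_rfl, h.fu0 le_rfl, if_pos rfl, sub_zero, ← Complex.ofReal_mul,
      ← mul_div_assoc, Real.mul_self_sqrt (by positivity), div_self (by positivity), Complex.ofReal_one]
  · have : ((l + a : ℕ) : ℝ) + 1 ≤ (k + a : ℕ) := by exact_mod_cast (show l + a < k + a by omega)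
    rw [h.fu0 (by gcongr), h.fu0 (by gcongr; omega), sub_self, mul_zero, if_neg h1.ne']

omit [CompleteSpace H] in
lemma K_apply (M : ℕ) (v : H) : K u M v = ∑ k : Fin M, ⟪φ u M (k + 2), v⟫_ℂ • φ u M k := by
  simp [K]

lemma K_star (M : ℕ) : star (K u M) = ∑ k : Fin M, rankOne ℂ (φ u M (k + 2)) (φ u M k) := by
  simp [K, star_sum, ContinuousLinearMap.star_eq_adjoint]

omit [CompleteSpace H] in
lemma Br.nK (h : Br u) (M : ℕ) : ‖K u M‖ ≤ 1 := ContinuousLinearMap.opNorm_le_bound _ zero_le_one fun v => by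
  rw [one_mul, ← sq_le_sq₀ (norm_nonneg _) (norm_nonneg _), K_apply]
  exact ((h.on 0 (by norm_num)).orthogonalFamily.norm_sum (fun k => ⟪φ u M (k + 2), v⟫_ℂ) _).trans_le
    ((h.on 2 le_rfl).sum_inner_products_le v)

omit [CompleteSpace H] in
lemma Br.low (h : Br u) (M : ℕ) (s : ℝ) : κ s - 3 / (M + 2) ≤ (⟪u s, K u M (u s)⟫_ℂ).re := by
  have m0 : (0 : ℝ) < M + 2 := by positivity
  obtain ⟨c, hc⟩ : ∃ c : ℕ → ℝ, ∀ k, c k = √(M + 2) * (κ (min ((k + 1) / (M + 2)) s) -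
    κ (min (k / (M + 2)) s)) := ⟨_, fun _ => rfl⟩
  have c0 : ∀ k, 0 ≤ c k := fun k => by
    rw [hc]
    exact mul_nonneg (by positivity) (sub_nonneg.2 (κ_mono (min_le_min_right _ (by gcongr; linarith))))
  have c1 : ∀ k, ⟪φ u M k, u s⟫_ℂ = c k := fun k => by rw [h.fu, hc]
  have h1 : (⟪u s, K u M (u s)⟫_ℂ).re = ∑ k ∈ Finset.range M, c (k + 2) * c k := by
    rw [K_apply, inner_sum, Finset.sum_range, Complex.re_sum]
    refine Finset.sum_congr rfl fun k _ => ?_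
    rw [inner_smul_right, ← inner_conj_symm (u s), c1, c1, Complex.conj_ofReal, ← Complex.ofReal_mul,
      Complex.ofReal_re]
  obtain ⟨j, hj⟩ : ∃ j, j = ⌊κ s * (M + 2)⌋₊ := ⟨_, rfl⟩
  have k0 : 0 ≤ κ s := le_max_left _ _
  have k1 : κ s ≤ 1 := max_le zero_le_one (min_le_right _ _)
  have j1 : (j : ℝ) ≤ κ s * (M + 2) := hj ▸ Nat.floor_le (by positivity)
  have j2 : κ s * (M + 2) < j + 1 := hj ▸ Nat.lt_floor_add_one _
  have j3 : j ≤ M + 2 := by exact_mod_cast (show (j : ℝ) ≤ M + 2 by nlinarith)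
  have c2 : ∀ k, k + 1 ≤ j → c k = √(M + 2) / (M + 2) := fun k hk => by
    have k2 : (k + 1 : ℝ) ≤ j := by exact_mod_cast hk
    have k3 : (k + 1) / (M + 2) ≤ κ s := (div_le_iff₀ m0).2 (k2.trans j1)
    refine Complex.ofReal_injective ((c1 k).symm.trans (h.fu1 (by omega) ?_))
    exact ((le_max_iff.1 k3).resolve_left (not_le.2 (by positivity))).trans (min_le_left _ _)
  rw [h1]
  refine le_trans ?_ (Finset.sum_le_sum_of_subset_of_nonneg (Finset.range_subset_range.2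
    (show j - 2 ≤ M by omega)) fun k _ _ => mul_nonneg (c0 _) (c0 _))
  rw [Finset.sum_congr rfl (g := fun _ => 1 / (M + 2 : ℝ)) fun k hk => by
    have := Finset.mem_range.1 hk
    rw [c2 _ (by omega), c2 _ (by omega), div_mul_div_comm, Real.mul_self_sqrt m0.le]
    field_simp, Finset.sum_const, Finset.card_range, nsmul_eq_mul, sub_le_iff_le_add, mul_one_div,
    ← add_div, le_div_iff₀ m0]
  have : (j : ℝ) ≤ (j - 2 : ℕ) + 2 := by exact_mod_cast (show j ≤ j - 2 + 2 by omega)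
  linarith

omit [CompleteSpace H] in
lemma Br.td (h : Br u) {B : ℕ → H →L[ℂ] H} (h1 : ∀ M, ‖B M‖ ≤ 1)
    (h2 : ∀ M s, (⟪u s, B M (u s)⟫_ℂ).re = (⟪u s, K u M (u s)⟫_ℂ).re) :
    ∀ v ∈ cl (range u), Tendsto (B · v) atTop (𝓝 v) := cl_tend h1 (by
  rintro _ ⟨s, rfl⟩
  rw [tendsto_iff_norm_sub_tendsto_zero]
  refine squeeze_zero (g := fun M : ℕ => √(6 / (M + 2))) (fun _ => norm_nonneg _) (fun M => ?_) (by
    simpa using ((tendsto_const_nhds (x := (6 : ℝ))).div_atTop (tendsto_atTop_add_const_right _ 2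
      tendsto_natCast_atTop_atTop)).sqrt)
  refine Real.le_sqrt_of_sq_le ?_
  have k1 := pow_le_pow_left₀ (norm_nonneg _) ((B M).le_of_opNorm_le (h1 M) (u s)) 2
  have k2 : ‖u s‖ ^ 2 = κ s := by rw [@norm_sq_eq_re_inner ℂ, h, min_self]; simp
  rw [norm_sub_rev, @norm_sub_sq ℂ, RCLike.re_to_complex, h2]
  have := h.low M s
  rw [one_mul] at k1
  linarith [show (6 : ℝ) / (M + 2) = 2 * (3 / (M + 2)) by ring])

def gs (u : ℝ → H) (M : ℕ) : Set H := ⋃ M' ∈ Iic M, ⋃ k : Fin M', {φ u M' k, φ u M' (k + 2)}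

omit [CompleteSpace H] in
lemma φ_mem (M k : ℕ) {g : Set H} (h : ∀ s ≤ (k + 1 : ℝ) / (M + 2), u s ∈ cl g) : φ u M k ∈ cl g :=
  Submodule.smul_mem _ _ (sub_mem (h _ le_rfl) (h _ (by gcongr; linarith)))

lemma K_pr (M : ℕ) {g : Set H} (h : ∀ k : Fin M, φ u M k ∈ cl g ∧ φ u M (k + 2) ∈ cl g) :
    pr g * K u M = K u M ∧ K u M * pr g = K u M := by
  constructor <;> ext v
  · simp [K_apply, fun k => pr_self (h k).1]
  · simp [K_apply, ← pr_inner, fun k => pr_self (h k).2]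

theorem Br.fac (h : Br u) : ∃ m : ℕ → ℕ,
    (∀ v (s : Finset (Σ n, Fin (m (n + 3)))), ∑ i ∈ s, ‖⟪star (1 - K u (m (i.1 + 2)))
      (φ u (m (i.1 + 3)) (i.2 + 2)), v⟫_ℂ‖ ^ 2 ≤ (6 * ‖v‖) ^ 2) ∧
    (∀ v (s : Finset (Σ n, Fin (m (n + 3)))), ∑ i ∈ s, ‖⟪(1 - K u (m (i.1 + 1)))
      (φ u (m (i.1 + 3)) i.2), v⟫_ℂ‖ ^ 2 ≤ (6 * ‖v‖) ^ 2) ∧
    ∀ v w, HasSum (fun i : Σ n, Fin (m (n + 3)) => ⟪star (1 - K u (m (i.1 + 2)))
      (φ u (m (i.1 + 3)) (i.2 + 2)), v⟫_ℂ • (1 - K u (m (i.1 + 1))) (φ u (m (i.1 + 3)) i.2)) w →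
        ‖pr (range u) v - w‖ ≤ 1 / 2 * ‖v‖ := by
  have nS : ∀ M, ‖star (K u M)‖ ≤ 1 := fun M => (norm_star _).trans_le (h.nK M)
  have t1 := h.td h.nK fun _ _ => rfl
  have t2 := h.td nS fun M s => by rw [← inner_conj_symm, st_inner, Complex.conj_re]
  have gL : ∀ M k, φ u M k ∈ cl (range u) := fun M k => φ_mem M k fun s _ => sub_cl ⟨s, rfl⟩
  have gL' : ∀ M, cl (gs u M) ≤ cl (range u) := fun M => cl_le (cl_closed _) fun w hw => by
    simp only [gs, mem_iUnion] at hw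
    obtain ⟨_, _, _, rfl | rfl⟩ := hw <;> exact gL _ _
  have gf : ∀ M, (gs u M).Finite := fun M => (finite_Iic M).biUnion fun _ _ =>
    finite_iUnion fun _ => toFinite _
  have gm : Monotone (gs u) := fun _ _ h => biUnion_subset_biUnion_left (Iic_subset_Iic.2 h)
  have g0 : pr (gs u 0) = 0 := ContinuousLinearMap.ext fun v => pr_zero (by simp [gs])
  have ex : ∀ n M : ℕ, ∃ M0, max n M ≤ M0 ∧ ∀ M' ≥ M0, ‖(1 - K u M') * pr (gs u M)‖ ≤ (1 / 2) ^ n / 16 ∧
      ‖(1 - star (K u M')) * pr (gs u M)‖ ≤ (1 / 2) ^ n / 16 := fun n M => by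
    have e0 : (0 : ℝ) < (1 / 2) ^ n / 16 := by positivity
    obtain ⟨M0, h0⟩ := eventually_atTop.1 (((fin_tend (gf M) fun v hv => t1 v (gL' M hv)).eventually
      (ge_mem_nhds e0)).and ((fin_tend (gf M) fun v hv => t2 v (gL' M hv)).eventually (ge_mem_nhds e0)))
    exact ⟨max (max n M) M0, le_max_left _ _, fun M' hM => h0 M' ((le_max_right _ _).trans hM)⟩
  choose G G1 G2 using ex
  obtain ⟨m, m0, m1⟩ : ∃ m : ℕ → ℕ, m 0 = 0 ∧ ∀ n, m (n + 1) = if n ≤ 1 then 0 else G n (m n) :=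
    ⟨fun n => Nat.rec 0 (fun n r => if n ≤ 1 then 0 else G n r) n, rfl, fun _ => rfl⟩
  have m2 : ∀ n ≤ 2, m n = 0 := fun n hn => by interval_cases n <;> simp [m0, m1]
  have m3 : Monotone m := monotone_nat_of_le_succ fun n => by
    rw [m1]
    split_ifs with h1
    · exact (m2 n (by omega)).le
    · exact (le_max_right _ _).trans (G1 _ _)
  have m4 : Tendsto m atTop atTop := (tendsto_add_atTop_iff_nat 1).1 (tendsto_atTop_mono' _
    (eventually_atTop.2 ⟨2, fun n hn => show n ≤ m (n + 1) by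
      rw [m1, if_neg (by omega)]; exact (le_max_left _ _).trans (G1 _ _)⟩) tendsto_id)
  have m5 : ∀ n j, n < j → ‖(1 - K u (m j)) * pr (gs u (m n))‖ ≤ (1 / 2) ^ n / 16 ∧
      ‖(1 - star (K u (m j))) * pr (gs u (m n))‖ ≤ (1 / 2) ^ n / 16 := fun n j hj => by
    by_cases h1 : n ≤ 1
    · simp [m2 n (by omega), g0]; positivity
    · exact G2 n _ _ (by have := m3 (Nat.succ_le_of_lt hj); rwa [m1, if_neg h1] at this)
  have gk : ∀ n j, n ≤ j → ∀ k : Fin (m n), φ u (m n) k ∈ cl (gs u (m j)) ∧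
      φ u (m n) (k + 2) ∈ cl (gs u (m j)) := fun n j hj k => by
    constructor <;> exact sub_cl (mem_iUnion₂.2 ⟨_, m3 hj, mem_iUnion.2 ⟨k, by simp⟩⟩)
  have kp := fun n j hj => K_pr (m n) (gk n j hj)
  have bs : ∀ (B : ℕ → H →L[ℂ] H) (a : ℕ), (a = 0 ∨ a = 2) → (∀ n, ‖B n‖ ≤ 1) →
      (∀ n, pr (gs u (m (n + 3))) * B n = B n * pr (gs u (m (n + 3)))) →
      (∀ n, ‖(1 - B n) * pr (gs u (m n))‖ ≤ (1 / 2) ^ n / 16) → ∀ v (s : Finset (Σ n, Fin (m (n + 3)))),
      ∑ i ∈ s, ‖⟪star (1 - B i.1) (φ u (m (i.1 + 3)) (i.2 + a)), v⟫_ℂ‖ ^ 2 ≤ (6 * ‖v‖) ^ 2 :=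
    fun B a ha h1 h2 h3 v s => by
      refine le_trans (Finset.sum_le_sum_of_subset_of_nonneg (t := (Finset.range (s.sup (·.1) + 1)).sigma
        fun _ => Finset.univ) (fun i hi => by
          simpa [Nat.lt_succ_iff] using Finset.le_sup (f := fun i : Σ n, Fin (m (n + 3)) => i.1) hi)
          fun _ _ _ => sq_nonneg _) (le_trans ?_ (bes (gm.comp m3) h1 h2 (fun n => (h3 n).trans
            (div_le_self (by positivity) (by norm_num))) v (s.sup (·.1) + 1)))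
      rw [Finset.sum_sigma]
      refine Finset.sum_le_sum fun n _ => le_trans (le_of_eq (Finset.sum_congr rfl fun k _ => ?_))
        ((h.on a (by omega)).sum_inner_products_le (s := Finset.univ) _)
      rw [st_inner, ← pr_inner, Function.comp_apply, pr_self]
      rcases ha with rfl | rfl
      exacts [(gk _ _ le_rfl k).1, (gk _ _ le_rfl k).2]
  refine ⟨m, bs (fun n => K u (m (n + 2))) 2 (Or.inr rfl) (fun n => h.nK _) (fun n => (kp _ _
    (by omega)).1.trans (kp _ _ (by omega)).2.symm) fun n => (m5 _ _ (by omega)).1, by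
      simpa only [star_sub, star_one, star_star, add_zero] using bs (fun n => star (K u (m (n + 1)))) 0
        (Or.inl rfl) (fun n => nS _) (fun n => by
          simpa only [star_mul, pr_star] using congrArg star ((kp (n + 1) (n + 3) (by omega)).2.trans
            (kp _ _ (by omega)).1.symm)) fun n => (m5 _ _ (by omega)).2, fun v w hw => ?_⟩
  have h1 := (hw.sigma fun n => hasSum_fintype _).tendsto_sum_nat
  have h2 : ∀ n, ∑ k : Fin (m (n + 3)), ⟪star (1 - K u (m (n + 2))) (φ u (m (n + 3)) (k + 2)), v⟫_ℂ •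
      (1 - K u (m (n + 1))) (φ u (m (n + 3)) k) =
        ((1 - K u (m (n + 1))) * K u (m (n + 3)) * (1 - K u (m (n + 2)))) v := fun n => by
    simp only [mul_apply_eq_comp, K_apply (m (n + 3)), map_sum, map_smul, st_inner]
  simp only [h2] at h1
  have h3 : ∀ n, ‖(1 - K u (m (n + 1))) * K u (m (n + 3)) * (1 - K u (m (n + 2))) -
      (K u (m (n + 3)) - K u (m (n + 2)))‖ ≤ (1 / 2) ^ n / 4 := fun n => by
    have k0 : ∀ n j, n < j → ‖K u (m n) * (1 - K u (m j))‖ ≤ (1 / 2) ^ n / 16 := fun n j hj => by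
      rw [← (kp n n le_rfl).2, mul_assoc]
      refine (norm_mul_le _ _).trans ((mul_le_of_le_one_left (norm_nonneg _) (h.nK _)).trans ?_)
      rw [← norm_star]
      simpa only [star_mul, star_sub, star_one, pr_star] using (m5 n j hj).2
    have k1 : ‖(1 - K u (m (n + 3))) * K u (m (n + 2))‖ ≤ (1 / 2) ^ (n + 2) / 16 := by
      rw [← (kp (n + 2) _ le_rfl).1, ← mul_assoc]
      exact (norm_mul_le _ _).trans ((mul_le_of_le_one_right (norm_nonneg _) (h.nK _)).trans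
        (m5 _ _ (by omega)).1)
    have k2 := k0 (n + 1) (n + 3) (by omega)
    have k3 := k0 (n + 1) (n + 2) (by omega)
    have k4 : ‖1 - K u (m (n + 2))‖ ≤ 2 := (norm_sub_le _ _).trans (by
      linarith [h.nK (m (n + 2)), ContinuousLinearMap.norm_id_le (𝕜 := ℂ) (E := H),
        show ‖(1 : H →L[ℂ] H)‖ = ‖ContinuousLinearMap.id ℂ H‖ from rfl])
    rw [show (1 - K u (m (n + 1))) * K u (m (n + 3)) * (1 - K u (m (n + 2))) -
      (K u (m (n + 3)) - K u (m (n + 2))) = (1 - K u (m (n + 3))) * K u (m (n + 2)) +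
        K u (m (n + 1)) * (1 - K u (m (n + 3))) * (1 - K u (m (n + 2))) -
        K u (m (n + 1)) * (1 - K u (m (n + 2))) by noncomm_ring]
    refine (norm_sub_le _ _).trans ((add_le_add ((norm_add_le _ _).trans (add_le_add k1
      ((norm_mul_le _ _).trans (mul_le_mul k2 k4 (norm_nonneg _) (by positivity))))) k3).trans ?_)
    have : (0 : ℝ) ≤ (1 / 2) ^ n := by positivity
    simp only [pow_succ]
    linarith
  have h4 : ∀ N, ‖K u (m (N + 2)) v - ∑ n ∈ Finset.range N, ((1 - K u (m (n + 1))) * K u (m (n + 3)) *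
      (1 - K u (m (n + 2)))) v‖ ≤ (1 - (1 / 2) ^ N) / 2 * ‖v‖ := fun N => by
    induction N with
    | zero => rw [m2 _ le_rfl]; simp [K]
    | succ n ih =>
      have k1 := ContinuousLinearMap.le_of_opNorm_le _ (h3 n) v
      rw [Finset.sum_range_succ, pow_succ]
      refine le_trans (le_of_eq ?_) ((norm_sub_le _ _).trans ((add_le_add ih k1).trans (le_of_eq (by ring))))
      congr 1
      simp only [ContinuousLinearMap.sub_apply]
      abel
  have h5 : Tendsto (fun N => K u (m (N + 2)) v) atTop (𝓝 (pr (range u) v)) :=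
    ((t1 _ (pr_mem _ v)).comp (m4.comp (tendsto_add_atTop_nat 2))).congr fun N =>
      DFunLike.congr_fun (K_pr _ fun k => ⟨gL _ _, gL _ _⟩).2 v
  refine le_of_tendsto' (h5.sub h1).norm fun N => (h4 N).trans ?_
  gcongr
  linarith [show (0 : ℝ) ≤ (1 / 2) ^ N by positivity]

end Pool.Agent.H.MP_0de7f2_an
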