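import Pool.Agent.H.MP_0de7f2_an.C

namespace Pool.Agent.H.MP_0de7f2_an

open Set Filter Topology InnerProductSpace MeasureTheory

lemma model : ∃ (u : ℝ → Lp ℂ 2 (volume : Measure ℝ)) (τ : Lp ℂ 2 (volume : Measure ℝ) →ₗᵢ[ℂ]
    Lp ℂ 2 (volume : Measure ℝ)) (e : ℕ → Lp ℂ 2 (volume : Measure ℝ)), Br u ∧
    (∀ r s, ⟪u r, τ (u s)⟫_ℂ = 0) ∧ Orthonormal ℂ e ∧ (∀ n s, ⟪e n, u s⟫_ℂ = 0) ∧
      ∀ n s, ⟪e n, τ (u s)⟫_ℂ = 0 := by
  obtain ⟨I, hI⟩ : ∃ I : ℝ → ℝ → Lp ℂ 2 (volume : Measure ℝ), ∀ a b, I a b = indicatorConstLp 2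
    (measurableSet_Ioc (a := a) (b := b)) measure_Ioc_lt_top.ne (1 : ℂ) := ⟨_, fun _ _ => rfl⟩
  have h1 : ∀ a b c d, ⟪I a b, I c d⟫_ℂ = (max (min b d - max a c) 0 : ℝ) := fun a b c d => by
    rw [hI, hI, L2.inner_indicatorConstLp_one_indicatorConstLp_one _ _ measure_Ioc_lt_top.ne
      measure_Ioc_lt_top.ne, Ioc_inter_Ioc, Real.volume_real_Ioc]
    rfl
  have h2 : ∀ a b, Lp.compMeasurePreservingₗᵢ ℂ (fun x : ℝ => x - 2) (measurePreserving_sub_right volume 2)
      (I a b) = I (a + 2) (b + 2) := fun a b => by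
    have h2 : ∀ (s t : Set ℝ) hs ht hs' ht', s = t → (indicatorConstLp 2 (s := s) hs hs' 1 :
        Lp ℂ 2 (volume : Measure ℝ)) = indicatorConstLp 2 (s := t) ht ht' 1 := by
      rintro s _ _ _ _ _ rfl; rfl
    rw [hI, hI]
    exact (Lp.indicatorConstLp_compMeasurePreserving _ _ _ _).trans (h2 _ _ _ _ _ _ (by simp))
  refine ⟨fun s => I 0 (min s 1), Lp.compMeasurePreservingₗᵢ ℂ (fun x : ℝ => x - 2)
    (measurePreserving_sub_right volume 2), fun n => I (4 + n) (4 + n + 1), fun r s => ?_, fun r s => ?_,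
    orthonormal_iff_ite.2 fun k l => ?_, fun n s => ?_, fun n s => ?_⟩
  · rw [h1, κ, max_self, sub_zero, max_comm, min_min_min_comm, min_self]
  · rw [h2, h1, max_eq_right (by
      linarith [min_le_left (min r 1) (min s 1 + 2), min_le_right r 1, le_max_right (0 : ℝ) (0 + 2)])]; simp
  · rw [h1]
    rcases lt_trichotomy k l with h | h | h
    · have : (k : ℝ) + 1 ≤ l := by exact_mod_cast h
      rw [if_neg h.ne, min_eq_left (by linarith), max_eq_right (by linarith : (4 : ℝ) + k ≤ 4 + l),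
        max_eq_right (by linarith)]; simp
    · simp [h]
    · have : (l : ℝ) + 1 ≤ k := by exact_mod_cast h
      rw [if_neg h.ne', min_eq_right (by linarith), max_eq_left (by linarith : (4 : ℝ) + l ≤ 4 + k),
        max_eq_right (by linarith)]; simp
  · rw [h1, max_eq_right (by
      linarith [min_le_right (4 + n + 1 : ℝ) (min s 1), min_le_right s 1,
        le_max_left (4 + n : ℝ) 0, n.cast_nonneg (α := ℝ)])]; simp
  · rw [h2, h1, max_eq_right (by
      linarith [min_le_right (4 + n + 1 : ℝ) (min s 1 + 2), min_le_right s 1,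
        le_max_left (4 + n : ℝ) (0 + 2), n.cast_nonneg (α := ℝ)])]; simp

lemma posn {I : Type} [Countable I] (lo hi : I → ℝ) (h : ∀ i, lo i < hi i) :
    ∃ p : I → ℝ, Function.Injective p ∧ ∀ i, lo i < p i ∧ p i < hi i := by
  obtain ⟨f, hf⟩ := exists_injective_nat I
  choose q h1 h2 using fun i => exists_rat_btwn (sub_lt_sub_right (h i) (f i * √2))
  refine ⟨fun i => q i + f i * √2, fun i j hij => hf (by_contra fun h3 => irrational_sqrt_two
    ⟨(q j - q i) / (f i - f j), ?_⟩), fun i => ⟨by linarith [h1 i], by linarith [h2 i]⟩⟩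
  have : (f i - f j : ℝ) ≠ 0 := sub_ne_zero.2 (by exact_mod_cast h3)
  push_cast
  field_simp
  linarith

variable {H : Type*} [NormedAddCommGroup H] [InnerProductSpace ℂ H] [CompleteSpace H]

lemma hz {ι : Type*} {ξ η : ι → H} {x : H →L[ℂ] H} (h : ∀ v, HasSum (fun i => ⟪η i, v⟫_ℂ • ξ i) (x v))
    {p q : H →L[ℂ] H} (hq : star q = q) (h1 : ∀ i, p (ξ i) = 0 ∨ q (η i) = 0) : p * x * q = 0 := by
  ext v
  refine ((h (q v)).mapL p).unique ?_
  convert hasSum_zero with i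
  · rw [map_smul, ← st_inner, hq]
    rcases h1 i with h | h <;> simp [h]
  · rfl

lemma comp {ι : Type*} {ε : ι → H} (hε : Orthonormal ℂ ε) {g : Set H} (hg : ∀ i, ε i ∈ g)
    (hg' : ∀ w ∈ g, w = 0 ∨ w ∈ range ε) {N : ℝ → H →L[ℂ] H} (n1 : ∀ t, star (N t) = N t)
    (n2 : ∀ s t, s ≤ t → N t * N s = N s) (n3 : ∀ t, N t * pr g = pr g * N t) {p : ι → ℝ}
    (hp : Function.Injective p) (n4 : ∀ t i, p i ≤ t → N t (ε i) = ε i) (n5 : ∀ t i, t < p i → N t (ε i) = 0)
    {T : Subalgebra ℂ (H →L[ℂ] H)} (hT : T ≤ alg N) (hP : pr g ∈ T) {x0 : H →L[ℂ] H} (h0 : x0 ∈ alg N)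
    (h1 : pr g * x0 * pr g = x0) {E : Type*} [NormedAddCommGroup E] [InnerProductSpace ℂ E]
    [CompleteSpace E] (π : H →L[ℂ] E) (j : E →L[ℂ] H) (e1 : ∀ v, π (j v) = v) (e2 : ∀ v, j (π v) = pr g v)
    (e3 : j.adjoint = π) {S : Subalgebra ℂ (E →L[ℂ] E)}
    (hS : (S : Set (E →L[ℂ] E)) = (fun A : H →L[ℂ] H => π ∘L A ∘L j) '' (T : Set (H →L[ℂ] H)))
    (hm : ∀ B : Subalgebra ℂ (E →L[ℂ] E), S ≤ B →
      centralizer {x | x ∈ B ∧ star x ∈ B} = {x | x ∈ B ∧ star x ∈ B} → B = S) : x0 ∈ T := by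
  obtain ⟨c, hc⟩ : ∃ c : (H →L[ℂ] H) → E →L[ℂ] E, ∀ A, c A = π ∘L A ∘L j := ⟨_, fun _ => rfl⟩
  obtain ⟨l, hl⟩ : ∃ l : (E →L[ℂ] E) → H →L[ℂ] H, ∀ A, l A = j ∘L A ∘L π := ⟨_, fun _ => rfl⟩
  simp only [← hc] at hS
  have l1 : ∀ A, l (c A) = pr g * A * pr g := fun A => by ext; simp [hl, hc, e2]
  have l2 : ∀ A B, l (A * B) = l A * l B := fun A B => by ext; simp [hl, e1]
  have l3 : ∀ A B, l A = l B → A = B := fun A B h => by
    ext v; simpa [hl, e1] using congrArg π (DFunLike.congr_fun h (j v))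
  have l4 : ∀ A, pr g * l A = l A ∧ l A * pr g = l A := fun A => by
    constructor <;> ext v <;> simp [hl, ← e2, e1]
  have l5 : ∀ A B, l (A - B) = l A - l B := fun A B => by ext; simp [hl]
  have l6 : l 1 = pr g := by ext; simp [hl, e2]
  have l7 : l 0 = 0 := by simp [hl]
  have p2 : pr g * pr g = pr g := pr_pr fun w hw => sub_cl hw
  have c2 : ∀ t, l (c (N t)) = N t * pr g := fun t => by rw [l1, ← n3, mul_assoc, p2]
  have c3 : ∀ t, star (c (N t)) = c (N t) := fun t => by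
    rw [hc, ContinuousLinearMap.star_eq_adjoint, ContinuousLinearMap.adjoint_comp,
      ContinuousLinearMap.adjoint_comp, ← e3, ContinuousLinearMap.adjoint_adjoint,
      ← ContinuousLinearMap.star_eq_adjoint, n1]
    rfl
  have c4 : ∀ s t, s ≤ t → c (N t) * c (N s) = c (N s) := fun s t h => l3 _ _ (by
    rw [l2, c2, c2, mul_assoc, ← mul_assoc (pr g), ← n3, mul_assoc, p2, ← mul_assoc, n2 s t h])
  have c5 : ∀ s t, c (N t) * c (N s) = c (N s) * c (N t) := fun s t => by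
    wlog h : s ≤ t generalizing s t
    · exact (this t s (le_of_not_ge h)).symm
    have := congrArg star (c4 s t h)
    rw [star_mul, c3, c3] at this
    rw [this, c4 s t h]
  have c6 := fun t => c4 t t le_rfl
  have a1 : ∀ A ∈ alg N, c A ∈ alg fun t => c (N t) := fun A hA => (mem_alg c6).2 fun t => l3 _ _ (by
    have := (mem_alg (fun t => n2 t t le_rfl)).1 hA t
    rw [l2, l2, l5, l6, c2, l1, l7, ← one_sub_mul, show (1 - N t) * pr g * (pr g * A * pr g) * (N t * pr g) =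
      (1 - N t) * (pr g * pr g) * A * (pr g * N t * pr g) by noncomm_ring, p2, ← n3, mul_assoc (N t), p2,
      sub_mul, n3, one_mul, ← mul_one_sub, ← n3, show pr g * (1 - N t) * A * (N t * pr g) =
        pr g * ((1 - N t) * A * N t) * pr g by noncomm_ring, this, mul_zero, zero_mul])
  have a2 : ∀ z, (∀ t, c (N t) * z = z * c (N t)) → z ∈ alg fun t => c (N t) := fun z h =>
    (mem_alg c6).2 fun t => by rw [mul_assoc, ← h, ← mul_assoc, sub_mul, c6]; simp
  have a3 : ∀ z, z ∈ alg (fun t => c (N t)) ∧ star z ∈ alg (fun t => c (N t)) →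
      ∀ k, ∃ a : ℂ, l z (ε k) = a • ε k := fun z h k => by
    have k1 : ∀ t, N t * l z = l z * N t := fun t => by
      have k1 := (mem_alg c6).1 h.1 t
      have k2 := congrArg star ((mem_alg c6).1 h.2 t)
      simp only [star_mul, star_sub, c3, star_star, star_one, star_zero] at k2
      have k3 := congrArg l (show c (N t) * z = z * c (N t) by
        linear_combination (norm := noncomm_ring) k2 - k1)
      rwa [l2, l2, c2, mul_assoc, (l4 z).1, n3, ← mul_assoc, (l4 z).2] at k3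
    have k2 := fun t v => DFunLike.congr_fun (k1 t) v
    simp only [mul_apply_eq_comp] at k2
    have k3 : pr g (l z (ε k)) = l z (ε k) := DFunLike.congr_fun (l4 z).1 _
    refine ⟨⟪ε k, l z (ε k)⟫_ℂ, (k3.symm.trans (pr_eq
      (Submodule.smul_mem _ _ (sub_cl (hg k))) fun w hw => ?_))⟩
    rcases hg' w hw with rfl | ⟨i, rfl⟩
    · simp
    rw [inner_smul_right]
    rcases lt_trichotomy (p i) (p k) with h | h | h
    · rw [hε.2 (fun e : i = k => h.ne (e ▸ rfl)), mul_zero, ← n4 _ i le_rfl, ← n1, st_inner, k2, n5 _ k h]; simp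
    · rw [hp h, inner_self_eq_norm_sq_to_K (ε k), hε.1]; simp
    · rw [hε.2 (fun e : i = k => h.ne' (e ▸ rfl)), mul_zero, ← n4 _ k le_rfl, ← k2, ← st_inner, n1, n5 _ i h]; simp
  have h2 := hm (alg fun t => c (N t)) (fun x hx => by
    obtain ⟨A, hA, rfl⟩ : x ∈ c '' T := hS ▸ hx
    exact a1 A (hT hA)) (subset_antisymm (fun z hz => by
      have k1 : ∀ t, c (N t) * z = z * c (N t) := fun t => hz _ ⟨a2 _ fun s => c5 t s,
        (c3 t).symm ▸ a2 _ fun s => c5 t s⟩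
      exact ⟨a2 z k1, a2 _ fun t => by simpa [c3] using (congrArg star (k1 t)).symm⟩)
    fun z hz w hw => l3 _ _ (by
      suffices l w * l z * pr g = l z * l w * pr g by
        rwa [mul_assoc, mul_assoc, (l4 w).2, (l4 z).2, ← l2, ← l2] at this
      refine eq_pr fun v hv => ?_
      rcases hg' v hv with rfl | ⟨i, rfl⟩
      · simp
      obtain ⟨a, ha⟩ := a3 z hz i
      obtain ⟨b, hb⟩ := a3 w hw i
      simp [ha, hb, smul_smul, mul_comm]))
  obtain ⟨A, hA, h3⟩ : c x0 ∈ c '' T := hS ▸ (h2 ▸ a1 x0 h0 : c x0 ∈ S)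
  rw [← h1, ← l1, ← h3, l1]
  exact mul_mem (mul_mem hP hA) hP

end Pool.Agent.H.MP_0de7f2_an
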