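import Pool.Agent.H.MP_0de7f2_an.D

namespace Pool.Agent.H.MP_0de7f2_an

open Set Filter Topology InnerProductSpace

variable {H : Type*} [NormedAddCommGroup H] [InnerProductSpace ℂ H] [CompleteSpace H]

theorem main {u : ℝ → H} {τ : H →ₗᵢ[ℂ] H} {e : ℕ → H} (h : Br u) (h1 : ∀ r s, ⟪u r, τ (u s)⟫_ℂ = 0)
    (he : Orthonormal ℂ e) (h2 : ∀ n s, ⟪e n, u s⟫_ℂ = 0) (h3 : ∀ n s, ⟪e n, τ (u s)⟫_ℂ = 0) :
    ∃ (T : Subalgebra ℂ (H →L[ℂ] H)) (g : Set H), (centralizer {x | x ∈ T ∧ star x ∈ T} =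
      {x | x ∈ T ∧ star x ∈ T} ∧ ∀ B : Subalgebra ℂ (H →L[ℂ] H), T ≤ B →
        centralizer {x | x ∈ B ∧ star x ∈ B} = {x | x ∈ B ∧ star x ∈ B} → B = T) ∧ pr g ∈ T ∧
      ∀ (E : Type) [NormedAddCommGroup E] [InnerProductSpace ℂ E] [CompleteSpace E] (π : H →L[ℂ] E)
        (j : E →L[ℂ] H), (∀ v, π (j v) = v) → (∀ v, j (π v) = pr g v) → j.adjoint = π →
        ∀ S : Subalgebra ℂ (E →L[ℂ] E), (S : Set (E →L[ℂ] E)) = (fun A : H →L[ℂ] H => π ∘L A ∘L j) ''
          (T : Set (H →L[ℂ] H)) → ¬∀ B : Subalgebra ℂ (E →L[ℂ] E), S ≤ B →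
            centralizer {x | x ∈ B ∧ star x ∈ B} = {x | x ∈ B ∧ star x ∈ B} → B = S := by
  classical
  obtain ⟨m, b1, b2, b3⟩ := h.fac
  obtain ⟨f, hf⟩ := exists_injective_nat ((Σ n, Fin (m (n + 3))) ⊕ (Σ n, Fin (m (n + 3))))
  obtain ⟨ε, hε'⟩ : ∃ ε, ε = e ∘ f := ⟨_, rfl⟩
  have hε : Orthonormal ℂ ε := hε' ▸ he.comp f hf
  replace h2 : ∀ i s, ⟪ε i, u s⟫_ℂ = 0 := fun i s => hε' ▸ h2 _ s
  replace h3 : ∀ i s, ⟪ε i, τ (u s)⟫_ℂ = 0 := fun i s => hε' ▸ h3 _ s
  obtain ⟨p, p1, p2⟩ := posn (I := (Σ n, Fin (m (n + 3))) ⊕ (Σ n, Fin (m (n + 3))))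
    (Sum.elim (fun i => (i.2 + 3 / 2) / (m (i.1 + 3) + 2)) fun i => (i.2 + 1) / (m (i.1 + 3) + 2))
    (Sum.elim (fun i => (i.2 + 2) / (m (i.1 + 3) + 2)) fun i => (i.2 + 3 / 2) / (m (i.1 + 3) + 2)) (by
      rintro (i | i) <;> simp only [Sum.elim_inl, Sum.elim_inr] <;> gcongr <;> norm_num)
  have u0 : ∀ s ≤ 0, u s = 0 := fun s hs => inner_self_eq_zero.1 (by
    rw [h, min_self, κ, max_eq_left ((min_le_left _ _).trans hs), Complex.ofReal_zero])
  have sy : ∀ {v w : H}, ⟪v, w⟫_ℂ = 0 → ⟪w, v⟫_ℂ = 0 := inner_eq_zero_symm.1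
  obtain ⟨G, hG⟩ : ∃ G : Set _ → ℝ → ℝ → Set H, ∀ A α β, G A α β =
    ε '' A ∪ u '' Iic α ∪ (fun s => τ (u s)) '' Iic β := ⟨_, fun _ _ _ => rfl⟩
  have g0 : ∀ {A α β} {Q : H → Prop}, (∀ i ∈ A, Q (ε i)) → (∀ s ≤ α, Q (u s)) → (∀ s ≤ β, Q (τ (u s))) →
      ∀ w ∈ G A α β, Q w := fun k1 k2 k3 w hw => by
    rw [hG] at hw
    rcases hw with (⟨i, h, rfl⟩ | ⟨i, h, rfl⟩) | ⟨i, h, rfl⟩
    exacts [k1 i h, k2 i h, k3 i h]
  have g1 : ∀ {A α β i}, i ∈ A → ε i ∈ cl (G A α β) := fun h => sub_cl (hG _ _ _ ▸ Or.inl (Or.inl ⟨_, h, rfl⟩))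
  have g2 : ∀ {A α β s}, s ≤ α → u s ∈ cl (G A α β) := fun h => sub_cl (hG _ _ _ ▸ Or.inl (Or.inr ⟨_, h, rfl⟩))
  have g3 : ∀ {A α β s}, s ≤ β → τ (u s) ∈ cl (G A α β) := fun h => sub_cl (hG _ _ _ ▸ Or.inr ⟨_, h, rfl⟩)
  have q1 : ∀ {A α β i}, i ∉ A → pr (G A α β) (ε i) = 0 := fun h => pr_zero (g0
    (fun k hk => hε.2 fun e => h (e ▸ hk)) (fun s _ => sy (h2 _ s)) fun s _ => sy (h3 _ s))
  have q2 : ∀ A α β s, pr (G A α β) (u s) = u (min s α) := fun A α β s => pr_eq (g2 (min_le_right _ _))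
    (g0 (fun i _ => by rw [h2, h2]) (fun r hr => by rw [h, h, min_comm s, ← min_assoc, min_eq_left hr])
      fun r _ => by rw [sy (h1 _ _), sy (h1 _ _)])
  have q3 : ∀ A α β s, pr (G A α β) (τ (u s)) = τ (u (min s β)) := fun A α β s =>
    pr_eq (g3 (min_le_right _ _)) (g0 (fun i _ => by rw [h3, h3]) (fun r _ => by rw [h1, h1]) fun r hr => by
      rw [τ.inner_map_map, τ.inner_map_map, h, h, min_comm s, ← min_assoc, min_eq_left hr])
  have cm : ∀ A α β A' α' β', pr (G A α β) * pr (G A' α' β') = pr (G A' α' β') * pr (G A α β) :=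
    fun A α β A' α' β' => pr_comm (g0 (fun i hi => by
      by_cases k : i ∈ A'
      · rw [pr_self (g1 k)]; exact g1 hi
      · rw [q1 k]; exact zero_mem _) (fun s hs => q2 _ _ _ _ ▸ g2 ((min_le_left _ _).trans hs))
      fun s hs => q3 _ _ _ _ ▸ g3 ((min_le_left _ _).trans hs))
  have gm : ∀ {A α β A' α' β'}, A ⊆ A' → α ≤ α' → β ≤ β' → ∀ w ∈ G A α β, w ∈ cl (G A' α' β') :=
    fun k1 k2 k3 => g0 (fun _ h => g1 (k1 h)) (fun _ h => g2 (h.trans k2)) fun _ h => g3 (h.trans k3)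
  have hL : pr (range u) = pr (G ∅ 1 0) := (pr_pr (g := range u) (g' := G ∅ 1 0) (by
    rintro _ ⟨s, rfl⟩
    rw [show u s = u (min s 1) from (pr_self (g := range u) (sub_cl ⟨s, rfl⟩)).symm.trans (pr_eq
      (sub_cl ⟨_, rfl⟩) (by rintro _ ⟨r, rfl⟩; simp only [h r, κ, min_assoc, min_self]))]
    exact g2 (min_le_right _ _))).symm.trans (pr_pr' (g0 (by simp) (fun s _ => sub_cl ⟨s, rfl⟩)
      fun s hs => by simp [u0 s hs]))
  rw [hL] at b3
  obtain ⟨N, hN⟩ : ∃ N : ℝ → H →L[ℂ] H, ∀ t, N t = pr (G {i | p i ≤ t} t t) := ⟨_, fun _ => rfl⟩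
  have n1 : ∀ t, star (N t) = N t := fun t => hN t ▸ pr_star _
  have n2 : ∀ s t, s ≤ t → N t * N s = N s := fun s t h => by
    rw [hN, hN]; exact pr_pr (gm (fun _ k => le_trans k h) h h)
  have n2' : ∀ s t, s ≤ t → N s * N t = N s := fun s t h => by simpa [n1] using congrArg star (n2 s t h)
  have n3 := fun t => n2 t t le_rfl
  have n4 : ∀ t i, p i ≤ t → N t (ε i) = ε i := fun t i h => hN t ▸ pr_self (g1 h)
  have n5 : ∀ t i, t < p i → N t (ε i) = 0 := fun t i h => hN t ▸ q1 (not_le.2 h)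
  have n6 : ∀ {r t v}, N r v = v → r ≤ t → (1 - N t) v = 0 := fun {r t v} h k => by
    have : N t (N r v) = N r v := DFunLike.congr_fun (n2 r t k) v
    rw [h] at this
    simp [this]
  have n7 : ∀ {r t v}, N r v = 0 → t ≤ r → N t v = 0 := fun {r t v} h k => by
    have : N t (N r v) = N t v := DFunLike.congr_fun (n2' t r k) v
    rw [← this, h, map_zero]
  have al : ∀ {ι : Type} {ξ η : ι → H} {x : H →L[ℂ] H}, (∀ v, HasSum (fun i => ⟪η i, v⟫_ℂ • ξ i) (x v)) →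
      (∀ i, ∃ r, N r (ξ i) = ξ i ∧ N r (η i) = 0) → x ∈ alg N := fun h k => (mem_alg n3).2 fun t =>
    hz h (n1 t) fun i => by
      obtain ⟨r, k1, k2⟩ := k i
      exact (le_total r t).imp (n6 k1) (n7 k2)
  have f1 : ∀ (M k : ℕ) r, (k + 1 : ℝ) / (M + 2) ≤ r → N r (φ u M k) = φ u M k := fun M k r hr =>
    hN r ▸ pr_self (φ_mem M k fun s hs => g2 (hs.trans hr))
  have f2 : ∀ (M k : ℕ) r, r ≤ (k + 2 : ℝ) / (M + 2) → N r (φ u M (k + 2)) = 0 := fun M k r hr => by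
    rw [φ, map_smul, map_sub, hN, q2, q2, min_eq_right (hr.trans (by
        push_cast; exact div_le_div_of_nonneg_right (by linarith) (by positivity))),
      min_eq_right (by exact_mod_cast hr), sub_self, smul_zero]
  have k1 : ∀ M, 1 - K u M ∈ alg N := fun M => sub_mem (one_mem _) (al (ι := Fin M) (ξ := fun k => φ u M k)
    (η := fun k => φ u M (k + 2)) (fun v => K_apply (u := u) M v ▸ hasSum_fintype _) fun k => ⟨_, f1 M k _ le_rfl, f2 M k _ (by gcongr; norm_num)⟩)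
  have fL : ∀ M k, φ u M k ∈ cl (G ∅ 1 0) := fun M k => by
    rw [← pr_self (φ_mem (g := range u) M k fun s _ => sub_cl ⟨s, rfl⟩), hL]; exact pr_mem _ _
  have k2 := fun M => K_pr (u := u) M fun k => ⟨fL M k, fL M (k + 2)⟩
  obtain ⟨b, hb⟩ := syn (hε.comp _ Sum.inl_injective) (by norm_num) b1
  obtain ⟨s, hs⟩ := syn (hε.comp _ Sum.inr_injective) (by norm_num) b2
  obtain ⟨x, hx⟩ := syn (hε.comp _ Sum.inr_injective) zero_le_one (η := ε ∘ Sum.inl) fun v s =>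
    (one_mul ‖v‖).symm ▸ (hε.comp _ Sum.inl_injective).sum_inner_products_le v
  generalize hη : (fun i : Σ n, Fin (m (n + 3)) => star (1 - K u (m (i.1 + 2)))
    (φ u (m (i.1 + 3)) (i.2 + 2))) = η at hb
  generalize hζ : (fun i : Σ n, Fin (m (n + 3)) => (1 - K u (m (i.1 + 1))) (φ u (m (i.1 + 3)) i.2)) = ζ at hs
  replace hη := fun i => (congrFun hη i).symm
  replace hζ := fun i => (congrFun hζ i).symm
  simp only [← hη, ← hζ, Function.comp_apply] at hb hs hx b3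
  have bA : b ∈ alg N := al hb fun i => ⟨_, n4 _ _ le_rfl, by
    have k3 := congrArg star ((mem_alg n3).1 (k1 (m (i.1 + 2))) (p (.inl i)))
    rw [star_mul, star_mul, n1, star_sub 1 (N _), star_one, n1] at k3
    simpa [hη, f2 _ _ _ (p2 (.inl i)).2.le] using DFunLike.congr_fun k3 (φ u (m (i.1 + 3)) (i.2 + 2))⟩
  have xA : x ∈ alg N := al hx fun i => ⟨_, n4 _ _ le_rfl, n5 _ _ ((p2 (.inr i)).2.trans (p2 (.inl i)).1)⟩
  have sA : star s ∈ alg N := (mem_alg n3).2 fun t => by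
    have k3 := hz hs (p := N t) (q := 1 - N t) (by simp [n1]) fun i => by
      refine (lt_or_ge t (p (.inr i))).imp (n5 _ _) (n6 ?_)
      have k3 := DFunLike.congr_fun ((mem_alg n3).1 (k1 (m (i.1 + 1))) (p (.inr i))) (φ u (m (i.1 + 3)) i.2)
      simp only [mul_apply_eq_comp, f1 _ _ _ (p2 (.inr i)).1.le, ← hζ] at k3
      exact (sub_eq_zero.1 k3).symm
    simpa [n1, mul_assoc] using congrArg star k3
  have s1 : ∀ {A : Type} {ε η : A → H} {x : H →L[ℂ] H}, Orthonormal ℂ ε →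
      (∀ v, HasSum (fun i => ⟪η i, v⟫_ℂ • ε i) (x v)) → ∀ i, star x (ε i) = η i :=
    fun {A ε η x} hε h i => ext_inner_right ℂ fun v => by
      rw [st_inner]
      refine ((h v).mapL (innerSL ℂ (ε i))).unique ?_
      rw [show (fun k => innerSL ℂ (ε i) (⟪η k, v⟫_ℂ • ε k)) = fun k => if k = i then ⟪η i, v⟫_ℂ else 0 from
        funext fun k => by by_cases k1 : k = i <;> simp [orthonormal_iff_ite.1 hε, k1, @eq_comm _ i k, hε.1 i]]
      exact hasSum_ite_eq _ _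
  have s2 : ∀ i, x (ε (.inl i)) = ε (.inr i) := fun i => (hx _).unique (by
    convert hasSum_ite_eq i (ε (.inr i)) with k
    by_cases k1 : k = i <;> simp [orthonormal_iff_ite.1 hε, k1, hε.1 (.inl i)])
  have s3 : ∀ i, star s (ε (.inr i)) = ζ i := s1 (hε.comp _ Sum.inr_injective) hs
  obtain ⟨L, hL'⟩ : ∃ L, L = pr (G ∅ 1 0) := ⟨_, rfl⟩
  have l1 : star L = L := hL' ▸ pr_star _
  have l2 : L * L = L := hL' ▸ pr_pr fun _ => sub_cl
  have l3 : ∀ i, L (η i) = η i := fun i => by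
    have k3 := DFunLike.congr_fun (congrArg star (k2 (m (i.1 + 2))).2) (φ u (m (i.1 + 3)) (i.2 + 2))
    rw [star_mul, pr_star] at k3
    simpa [hη, hL', pr_self (fL _ _)] using k3
  have l4 : ∀ t, N t * L = L * N t := fun t => by rw [hN, hL', cm]
  have aC : ∀ z, (∀ t, N t * z = z * N t) → z ∈ alg N := fun z h =>
    (mem_alg n3).2 fun t => by rw [mul_assoc, ← h, ← mul_assoc, sub_mul, n3]; simp
  have bL : b * L = b := by
    simpa [mul_sub, sub_eq_zero, eq_comm] using hz hb (p := 1) (q := 1 - L) (by simp [l1])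
      fun i => Or.inr (by simp [l3])
  have r1 : ‖L - star s * x * b‖ < 1 := (ContinuousLinearMap.opNorm_le_bound _ (by norm_num) fun v => by
    refine hL' ▸ b3 v _ ?_
    simpa [s2, s3] using (hb v).mapL (star s * x)).trans_lt one_half_lt_one
  have rA : L - star s * x * b ∈ alg N := sub_mem (aC _ l4) (mul_mem (mul_mem sA xA) bA)
  have r2 := geom_series_mul_neg _ r1
  have zA : ∑' i, (L - star s * x * b) ^ i ∈ alg N := (mem_alg n3).2 fun t =>
    (((summable_geometric_of_norm_lt_one r1).hasSum.mul_left (1 - N t)).mul_right (N t)).unique (by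
      simpa only [fun i => (mem_alg n3).1 (pow_mem rA i) t] using hasSum_zero)
  generalize ∑' i, (L - star s * x * b) ^ i = Z at r2 zA
  have r3 : Z * (star s * x * b) = L := by
    have k3 := congrArg (· * L) r2
    simp only [mul_assoc, sub_mul, one_mul, l2, bL] at k3
    simpa [mul_assoc] using k3
  have y0 : ∀ A α β, pr (G A α β) * τ.toContinuousLinearMap * L =
      τ.toContinuousLinearMap * pr (G ∅ β 0) * L := fun A α β => hL' ▸ eq_pr (g0 (by simp)
    (fun s _ => by simp [q2, q3]) fun s hs => by simp [u0 s hs])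
  have y1 : ∀ A α, pr (G A α 0) * (τ.toContinuousLinearMap * L) = 0 := fun A α => by
    rw [← mul_assoc, y0, show pr (G ∅ 0 0) = 0 from ContinuousLinearMap.ext fun v => pr_zero (g0 (by simp)
      (fun s hs => by simp [u0 s hs]) fun s hs => by simp [u0 s hs])]; simp
  have y2 : ∀ t, N t * (τ.toContinuousLinearMap * L) = τ.toContinuousLinearMap * L * N t := fun t => by
    rw [mul_assoc, ← l4, hN, ← mul_assoc, y0, mul_assoc, hL']
    congr 1
    exact eq_pr (g0 (by simp) (fun s _ => by simp [q2]) fun s hs => by simp [u0 s hs])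
  have y3 : τ.toContinuousLinearMap * L ≠ 0 := fun k => by
    have k3 := DFunLike.congr_fun k (u 1)
    simp only [mul_apply_eq_comp, hL', pr_self (g2 le_rfl), LinearIsometry.coe_toContinuousLinearMap] at k3
    have k4 := h 1 1
    rw [← τ.inner_map_map, k3] at k4
    simp [κ] at k4
  have y4 : τ.toContinuousLinearMap * L * L = τ.toContinuousLinearMap * L := by rw [mul_assoc, l2]
  generalize τ.toContinuousLinearMap * L = y at y1 y2 y3 y4
  obtain ⟨E, E0, E1, E2, E3, E4⟩ : ∃ E : ℕ → H →L[ℂ] H, E 0 = 1 ∧ E 1 = 1 - pr (G (range .inr) 0 0) ∧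
      E 2 = pr (G (range .inl) 1 0) ∧ E 3 = pr (G (range .inl) 0 0) ∧ ∀ k, E (k + 4) = 0 :=
    ⟨fun | 0 => _ | 1 => _ | 2 => _ | 3 => _ | _ + 4 => 0, rfl, rfl, rfl, rfl, fun _ => rfl⟩
  have e0 : ∀ {Q : (H →L[ℂ] H) → Prop}, Q 1 → Q (1 - pr (G (range .inr) 0 0)) → (∀ A α, Q (pr (G A α 0))) →
      Q 0 → ∀ k, Q (E k) := fun k0 k1 k2 k3 => fun
    | 0 => E0 ▸ k0 | 1 => E1 ▸ k1 | 2 => E2 ▸ k2 _ _ | 3 => E3 ▸ k2 _ _ | k + 4 => E4 k ▸ k3
  have e1 : ∀ k, star (E k) = E k := e0 (Q := fun z => star z = z) (by simp) (by simp [pr_star])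
    (fun _ _ => pr_star _) (by simp)
  have e2 : ∀ A α β k, pr (G A α β) * E k = E k * pr (G A α β) := fun A α β =>
    e0 (Q := fun z => pr (G A α β) * z = z * pr (G A α β)) (by simp)
    (by rw [mul_sub, sub_mul, cm]; simp) (fun _ _ => cm _ _ _ _ _ _) (by simp)
  have e3 : ∀ k l, k ≤ l → E k * E l = E l := fun k l hl => by
    have k3 : ∀ k, E k * E (k + 1) = E (k + 1) := fun k => by
      rcases k with _ | _ | _ | k
      · simp [E0]
      · show E 1 * E 2 = E 2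
        rw [E1, E2, sub_mul, eq_pr (x := pr (G (range .inr) 0 0)) (g := G (range .inl) 1 0) (y := 0)
          (g0 (fun i ⟨k, hk⟩ => q1 (by simp [← hk]))
          (fun s _ => by simp [q2, u0]) fun s hs => by simp [u0 s hs])]
        simp
      · show E 2 * E 3 = E 3
        rw [E2, E3]; exact pr_pr (gm le_rfl zero_le_one le_rfl)
      · show E (k + 3) * E (k + 4) = E (k + 4)
        simp [E4]
    induction hl with
    | refl =>
      exact e0 (Q := fun z => z * z = z) (by simp) (by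
        rw [sub_mul, mul_sub, mul_sub, pr_pr fun _ => sub_cl]; simp) (fun _ _ => pr_pr fun _ => sub_cl)
        (by simp) k
    | step _ ih => rw [← k3, ← mul_assoc, ih]
  have e4 : E 2 * L = L := by rw [E2, hL']; exact pr_pr (gm (empty_subset _) le_rfl le_rfl)
  have e5 : E 3 * L = 0 := by
    rw [E3, hL', eq_pr (y := 0) (g0 (by simp) (fun s _ => by simp [q2, u0]) fun s hs => by simp [u0 s hs]),
      zero_mul]
  have e6 : E 2 * y = 0 := E2 ▸ y1 _ _
  have e7 : ∀ {z : H →L[ℂ] H} (j : ℕ), E j * z = z → z * E j = 0 → ∀ k, (1 - E (k + 1)) * z * E k = 0 :=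
    fun {z} j k3 k4 k => by
      rcases lt_or_ge k j with k5 | k5
      · rw [← k3, ← mul_assoc, sub_mul, e3 _ _ k5]; simp
      · rw [← e3 _ _ k5, mul_assoc, ← mul_assoc z, k4]; simp
  have y1' := y1 (range .inr) 0
  have yL : L * star y = star y := by simpa [l1] using congrArg star y4
  obtain ⟨T, t1, t2, t3, t4⟩ := core N E (pr (G univ 0 0)) (y * Z * star s) b x y n1 n2 e1 e3 E0 (E4 0)
    (pr_star _) (fun t k => hN t ▸ e2 _ _ _ k) (fun t => hN t ▸ cm _ _ _ _ _ _) (fun k => (e2 _ _ _ k).symm)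
    (by
      rintro _ (rfl | rfl | rfl)
      · refine ⟨mul_mem (mul_mem (aC y y2) zA) sA, e7 1 (by
          rw [E1, sub_mul, one_mul, ← mul_assoc, ← mul_assoc, y1']; simp) ?_⟩
        have k3 := congrArg star (hz hs (p := E 1) (q := 1) (by simp) fun i => Or.inl (by
          simp [E1, pr_self (g1 (mem_range_self i))]))
        simp only [mul_one, star_mul, e1, star_zero] at k3
        rw [mul_assoc, k3, mul_zero]
      · refine ⟨bA, e7 3 ?_ ?_⟩
        · simpa [sub_mul, sub_eq_zero, eq_comm] using hz hb (p := 1 - E 3) (q := 1) (by simp)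
            fun i => Or.inl (by simp [E3, pr_self (g1 (mem_range_self i))])
        · have k3 := congrArg star e5
          rw [star_mul, l1, e1, star_zero] at k3
          rw [← bL, mul_assoc, k3, mul_zero]
      · exact ⟨aC _ fun t => by simpa [n1] using (congrArg star (y2 t)).symm,
          e7 2 (by rw [← yL, ← mul_assoc, e4]) (by simpa [e1] using congrArg star e6)⟩)
    (by rw [mul_assoc, mul_assoc, mul_assoc, ← mul_assoc _ x, r3, y4]) (by
      have k3 := congrArg star e4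
      rw [star_mul, l1, e1] at k3
      rw [e6, ← y4, mul_assoc, k3, y4]
      exact y3.symm)
  refine ⟨T, G univ 0 0, t1, t2, fun E _ _ _ π j c1 c2 c3 S hS hm => t4 (comp hε
    (fun i => hG _ _ _ ▸ Or.inl (Or.inl ⟨i, trivial, rfl⟩)) (g0 (fun i _ => Or.inr ⟨i, rfl⟩)
      (fun s hs => Or.inl (u0 s hs)) fun s hs => Or.inl (by simp [u0 s hs])) n1 n2
    (fun t => hN t ▸ cm _ _ _ _ _ _) p1 n4 n5 t3 t2 xA ?_ π j c1 c2 c3 hS hm)⟩
  have k3 := hz hx (p := 1 - pr (G univ 0 0)) (q := 1) (by simp)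
    fun i => Or.inl (by simp [pr_self (g1 (mem_univ _))])
  have k4 := hz hx (p := 1) (q := 1 - pr (G univ 0 0)) (by simp [pr_star])
    fun i => Or.inr (by simp [pr_self (g1 (mem_univ _))])
  simp only [mul_one, sub_mul, one_mul, mul_sub, sub_eq_zero] at k3 k4
  rw [← k3, ← k4]

end Pool.Agent.H.MP_0de7f2_an
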